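import Pool.Agent.W488.IX.Stm

/-! Project IX: the gradient of `wX` is Lipschitz. -/

set_option autoImplicit false

namespace Pool.Agent.W439.IX.Regw

open MeasureTheory Set Filter Topology
open Pool.Agent.W488.IW Pool.Agent.W488.IX

section kap

variable {α C : ℝ} {κ : ℝ → ℝ}

theorem Cpos (h : Kap α C κ) : 0 < C := lt_of_lt_of_le one_pos h.C1

theorem ii (h : Kap α C κ) (a b : ℝ) : IntervalIntegrable (fun s => κ s / s) volume a b := by
  have h1 : IntervalIntegrable (fun s : ℝ => C * s ^ (α - 1)) volume a b :=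
    (intervalIntegral.intervalIntegrable_rpow' (by linarith [h.a0])).const_mul C
  refine h1.mono_fun ?_ ?_
  · exact (h.cont.measurable.div measurable_id).aestronglyMeasurable
  · refine Eventually.of_forall fun s => ?_
    rcases le_or_gt s 0 with hs | hs
    · simp only [h.neg s hs, zero_div, norm_zero]
      exact norm_nonneg _
    · have h2 := h.up s hs.le
      have h3 := h.nn s
      change ‖κ s / s‖ ≤ ‖C * s ^ (α - 1)‖
      rw [Real.norm_of_nonneg (div_nonneg h3 hs.le),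
        Real.norm_of_nonneg (mul_nonneg (Cpos h).le (Real.rpow_nonneg hs.le _)),
        div_le_iff₀ hs, mul_assoc, ← Real.rpow_add_one hs.ne']
      simpa using h2

theorem ik (h : Kap α C κ) (a b : ℝ) : IntervalIntegrable κ volume a b :=
  h.cont.intervalIntegrable a b

theorem hh1_nn (h : Kap α C κ) {t : ℝ} (ht : 0 ≤ t) : 0 ≤ hh1 κ t :=
  intervalIntegral.integral_nonneg ht fun s hs => div_nonneg (h.nn s) hs.1

theorem hh1_diff (h : Kap α C κ) {m s t : ℝ} (hms : m ≤ s) (hs : 0 < s)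
    (hst : s ≤ t) : m * |hh1 κ t - hh1 κ s| ≤ C * (t - s) := by
  have h1 : hh1 κ t - hh1 κ s = ∫ σ in s..t, κ σ / σ := by
    unfold hh1
    exact intervalIntegral.integral_interval_sub_left (ii h 0 t) (ii h 0 s)
  have h2 : 0 ≤ ∫ σ in s..t, κ σ / σ :=
    intervalIntegral.integral_nonneg hst fun σ hσ => div_nonneg (h.nn σ) (hs.le.trans hσ.1)
  have h3 : ∫ σ in s..t, κ σ / σ ≤ ∫ _ in s..t, C / s := by
    refine intervalIntegral.integral_mono_on hst (ii h s t) (by simp) fun σ hσ => ?_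
    exact div_le_div₀ (Cpos h).le (h.bd σ) hs hσ.1
  rw [intervalIntegral.integral_const, smul_eq_mul] at h3
  rw [h1, abs_of_nonneg h2]
  calc m * ∫ σ in s..t, κ σ / σ ≤ s * ((t - s) * (C / s)) :=
        mul_le_mul hms h3 h2 hs.le
    _ = C * (t - s) := by field_simp

theorem hh1_lip (h : Kap α C κ) {m s t : ℝ} (hms : m ≤ s) (hmt : m ≤ t)
    (hs : 0 < s) (ht : 0 < t) : m * |hh1 κ s - hh1 κ t| ≤ C * |s - t| := by
  rcases le_total s t with hst | hst
  · rw [abs_sub_comm, abs_sub_comm s t, abs_of_nonneg (sub_nonneg.2 hst)]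
    exact hh1_diff h hms hs hst
  · rw [abs_of_nonneg (sub_nonneg.2 hst)]
    exact hh1_diff h hmt ht hst

theorem om1_lip (h : Kap α C κ) (s t : ℝ) : |om1 κ s - om1 κ t| ≤ C * |s - t| := by
  have h1 : om1 κ s - om1 κ t = ∫ σ in t..s, κ σ := by
    unfold om1
    exact intervalIntegral.integral_interval_sub_left (ik h 0 s) (ik h 0 t)
  rw [h1, ← Real.norm_eq_abs]
  refine intervalIntegral.norm_integral_le_of_norm_le_const (C := C) fun σ _ => ?_
  rw [Real.norm_of_nonneg (h.nn σ)]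
  exact h.bd σ

theorem om1_le (h : Kap α C κ) {t : ℝ} (ht : 0 ≤ t) : |om1 κ t| ≤ C * t := by
  have h1 := om1_lip h t 0
  have h2 : om1 κ 0 = 0 := by simp [om1]
  rwa [h2, sub_zero, sub_zero, abs_of_nonneg ht] at h1

/-- `ω'(t) = t h'(t) - h(t)` -/
theorem om1_eq (h : Kap α C κ) {t : ℝ} (ht : 0 ≤ t) : om1 κ t = t * hh1 κ t - hh κ t := by
  have hc : Continuous (hh1 κ) := intervalIntegral.continuous_primitive (ii h) 0
  have h1 : ∫ s in (0 : ℝ)..t, (hh1 κ s + κ s) = t * hh1 κ t - 0 * hh1 κ 0 := by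
    refine intervalIntegral.integral_eq_sub_of_hasDerivAt_of_le ht
      (f := fun s => s * hh1 κ s) (by fun_prop) (fun s hs => ?_)
      ((hc.intervalIntegrable 0 t).add (ik h 0 t))
    have hd : HasDerivAt (hh1 κ) (κ s / s) s := by
      refine intervalIntegral.integral_hasDerivAt_right (ii h 0 s) ?_ ?_
      · exact (h.cont.measurable.div measurable_id).stronglyMeasurable.stronglyMeasurableAtFilter
      · exact h.cont.continuousAt.div continuousAt_id hs.1.ne'
    have h2 := (hasDerivAt_id s).mul hd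
    refine h2.congr_deriv ?_
    have := hs.1.ne'
    simp only [id]
    field_simp
  rw [intervalIntegral.integral_add (hc.intervalIntegrable 0 t) (ik h 0 t)] at h1
  have h3 : hh κ t = ∫ s in (0 : ℝ)..t, hh1 κ s := rfl
  have h4 : om1 κ t = ∫ s in (0 : ℝ)..t, κ s := rfl
  rw [← h3, ← h4] at h1
  linarith

theorem Fy_eq (h : Kap α C κ) {x y : ℝ} (hx : 0 < x) (hy : 0 < y) :
    Fy κ x y = om1 κ (y + min x y) - y * hh1 κ (y + min x y) := by
  have h1 : 0 ≤ y + min x y := by positivity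
  rw [om1_eq h h1]
  unfold Fy
  ring

end kap

section XX

theorem XX_pos {ε : ℝ} (hε : 0 < ε) (a : ℂ) : 0 < XX ε a := by
  unfold XX
  positivity

theorem XX_ge (ε : ℝ) (a : ℂ) : ‖a‖ ≤ XX ε a := by
  unfold XX
  refine Real.le_sqrt_of_sq_le ?_
  nlinarith [sq_nonneg ε]

theorem XX_mono (ε : ℝ) {a b : ℂ} (h : ‖a‖ ≤ ‖b‖) : XX ε a ≤ XX ε b := by
  unfold XX
  gcongr

theorem XX_lip (ε : ℝ) (a b : ℂ) : |XX ε a - XX ε b| ≤ ‖a - b‖ := by
  have key : ∀ a b : ℂ, XX ε a ≤ XX ε b + ‖a - b‖ := by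
    intro a b
    have hb := XX_ge ε b
    have hb0 : 0 ≤ XX ε b := (norm_nonneg b).trans hb
    have hb2 : XX ε b ^ 2 = ‖b‖ ^ 2 + ε ^ 2 := Real.sq_sqrt (by positivity)
    have hab : ‖a‖ ≤ ‖b‖ + ‖a - b‖ := by
      have := norm_sub_norm_le a b
      linarith
    unfold XX at hb hb0 hb2 ⊢
    refine Real.sqrt_le_iff.2 ⟨by positivity, ?_⟩
    have h1 : ‖a‖ ^ 2 ≤ (‖b‖ + ‖a - b‖) ^ 2 := by gcongr
    have h2 : ‖b‖ * ‖a - b‖ ≤ Real.sqrt (‖b‖ ^ 2 + ε ^ 2) * ‖a - b‖ := by gcongr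
    nlinarith
  rw [abs_sub_le_iff]
  constructor
  · linarith [key a b]
  · have := key b a
    rw [norm_sub_rev] at this
    linarith

theorem XX_zero {ε : ℝ} (hε : 0 < ε) : XX ε 0 = ε := by
  unfold XX
  simp [Real.sqrt_sq hε.le]

theorem XX_d1 {ε : ℝ} (hε : 0 < ε) (F : ℂ × ℂ) : HasFDerivAt (fun F : ℂ × ℂ => XX ε F.1)
    ((1 / XX ε F.1) • (innerSL ℝ F.1).comp (ContinuousLinearMap.fst ℝ ℂ ℂ)) F := by
  have h1 : HasFDerivAt (fun F : ℂ × ℂ => F.1) (ContinuousLinearMap.fst ℝ ℂ ℂ) F :=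
    hasFDerivAt_fst
  have h2 := (h1.norm_sq.add_const (ε ^ 2)).sqrt (by positivity)
  refine h2.congr_fderiv ?_
  have h3 : XX ε F.1 ≠ 0 := (XX_pos hε F.1).ne'
  ext u <;> simp [XX] <;> field_simp

theorem XX_d2 {ε : ℝ} (hε : 0 < ε) (F : ℂ × ℂ) : HasFDerivAt (fun F : ℂ × ℂ => XX ε F.2)
    ((1 / XX ε F.2) • (innerSL ℝ F.2).comp (ContinuousLinearMap.snd ℝ ℂ ℂ)) F := by
  have h1 : HasFDerivAt (fun F : ℂ × ℂ => F.2) (ContinuousLinearMap.snd ℝ ℂ ℂ) F :=
    hasFDerivAt_snd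
  have h2 := (h1.norm_sq.add_const (ε ^ 2)).sqrt (by positivity)
  refine h2.congr_fderiv ?_
  have h3 : XX ε F.2 ≠ 0 := (XX_pos hε F.2).ne'
  ext u <;> simp [XX] <;> field_simp

end XX

/-- the functional `U ↦ ⟨u, U.1⟩ + ⟨v, U.2⟩` -/
noncomputable def LL (u v : ℂ) : ℂ × ℂ →L[ℝ] ℝ :=
  (innerSL ℝ u).comp (ContinuousLinearMap.fst ℝ ℂ ℂ) +
    (innerSL ℝ v).comp (ContinuousLinearMap.snd ℝ ℂ ℂ)

theorem LL_lip (u v u' v' : ℂ) : ‖LL u v - LL u' v'‖ ≤ ‖u - u'‖ + ‖v - v'‖ := by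
  have h1 : LL u v - LL u' v' = (innerSL ℝ (u - u')).comp (ContinuousLinearMap.fst ℝ ℂ ℂ) +
      (innerSL ℝ (v - v')).comp (ContinuousLinearMap.snd ℝ ℂ ℂ) := by
    unfold LL
    simp only [map_sub, ContinuousLinearMap.sub_comp]
    abel
  rw [h1]
  refine (norm_add_le _ _).trans (add_le_add ?_ ?_)
  · refine (ContinuousLinearMap.opNorm_comp_le _ _).trans ?_
    rw [innerSL_apply_norm]
    exact mul_le_of_le_one_right (norm_nonneg _) (ContinuousLinearMap.norm_fst_le ℝ ℂ ℂ)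
  · refine (ContinuousLinearMap.opNorm_comp_le _ _).trans ?_
    rw [innerSL_apply_norm]
    exact mul_le_of_le_one_right (norm_nonneg _) (ContinuousLinearMap.norm_snd_le ℝ ℂ ℂ)

/-- the gradient of `wX` -/
theorem wX_fd (hJ : S_JW) {α C : ℝ} {κ : ℝ → ℝ} (h : Kap α C κ) {ε : ℝ} (ϑ : ℝ) (hε : 0 < ε)
    (F : ℂ × ℂ) : HasFDerivAt (wX κ ε ϑ)
      (LL ((Fx κ (XX ε F.1) (XX ε F.2) / XX ε F.1 + ϑ) • F.1)
        ((Fy κ (XX ε F.1) (XX ε F.2) / XX ε F.2 + ϑ) • F.2)) F := by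
  have h1 := (hJ α C κ h (XX ε F.1) (XX ε F.2) (XX_pos hε _) (XX_pos hε _)).comp F
    ((XX_d1 hε F).prodMk (XX_d2 hε F))
  have h2 : HasFDerivAt (fun F : ℂ × ℂ => F.1) (ContinuousLinearMap.fst ℝ ℂ ℂ) F :=
    hasFDerivAt_fst
  have h3 : HasFDerivAt (fun F : ℂ × ℂ => F.2) (ContinuousLinearMap.snd ℝ ℂ ℂ) F :=
    hasFDerivAt_snd
  have h4 := (h1.sub_const (fX κ ε ε)).add ((h2.norm_sq.add h3.norm_sq).const_mul (ϑ / 2))
  refine h4.congr_fderiv ?_
  have hX := (XX_pos hε F.1).ne'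
  have hY := (XX_pos hε F.2).ne'
  ext u <;> simp [LL, lin] <;> ring

theorem lip_of {φ : ℂ × ℂ → ℝ} {u : ℂ × ℂ → ℂ} {C1 C2 : ℝ}
    (hu : ∀ F F', ‖u F - u F'‖ ≤ ‖F - F'‖) (h1 : ∀ F, |φ F| ≤ C1)
    (h2 : ∀ F F', ‖u F‖ ≤ ‖u F'‖ → ‖u F‖ * |φ F - φ F'| ≤ C2 * ‖F - F'‖) (F F' : ℂ × ℂ) :
    ‖φ F • u F - φ F' • u F'‖ ≤ (C1 + C2) * ‖F - F'‖ := by
  have key : ∀ F F' : ℂ × ℂ, ‖u F‖ ≤ ‖u F'‖ →
      ‖φ F • u F - φ F' • u F'‖ ≤ (C1 + C2) * ‖F - F'‖ := by
    intro F F' hF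
    have e : φ F • u F - φ F' • u F' = (φ F - φ F') • u F + φ F' • (u F - u F') := by
      module
    rw [e]
    refine (norm_add_le _ _).trans ?_
    rw [norm_smul, norm_smul, Real.norm_eq_abs, Real.norm_eq_abs]
    have e1 := h2 F F' hF
    have e2 : |φ F'| * ‖u F - u F'‖ ≤ C1 * ‖F - F'‖ :=
      mul_le_mul (h1 F') (hu F F') (norm_nonneg _) ((abs_nonneg _).trans (h1 F'))
    linarith
  rcases le_total ‖u F‖ ‖u F'‖ with hF | hF
  · exact key F F' hF
  · rw [norm_sub_rev, norm_sub_rev F F']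
    exact key F' F hF

theorem main (hJ : S_JW) : S_REGW := by
  intro α C κ h ε ϑ hε hϑ
  have hfd := fun F => wX_fd hJ h ϑ hε F
  have hC := Cpos h
  have hn1 : ∀ F F' : ℂ × ℂ, ‖F.1 - F'.1‖ ≤ ‖F - F'‖ := fun F F' => norm_fst_le (F - F')
  have hn2 : ∀ F F' : ℂ × ℂ, ‖F.2 - F'.2‖ ≤ ‖F - F'‖ := fun F F' => norm_snd_le (F - F')
  have hX : ∀ F F' : ℂ × ℂ, |XX ε F.1 - XX ε F'.1| ≤ ‖F - F'‖ := fun F F' =>
    (XX_lip ε _ _).trans (hn1 F F')
  have hY : ∀ F F' : ℂ × ℂ, |XX ε F.2 - XX ε F'.2| ≤ ‖F - F'‖ := fun F F' =>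
    (XX_lip ε _ _).trans (hn2 F F')
  have hA : ∀ F F' : ℂ × ℂ,
      ‖(Fx κ (XX ε F.1) (XX ε F.2) / XX ε F.1 + ϑ) • F.1 -
        (Fx κ (XX ε F'.1) (XX ε F'.2) / XX ε F'.1 + ϑ) • F'.1‖ ≤
        ((C + ϑ) + 2 * C) * ‖F - F'‖ := by
    refine lip_of (φ := fun F : ℂ × ℂ => Fx κ (XX ε F.1) (XX ε F.2) / XX ε F.1 + ϑ)
      (u := fun F => F.1) hn1 (fun F => ?_) (fun F F' hF => ?_)
    · have p1 := XX_pos hε F.1
      have p2 := XX_pos hε F.2
      have e1 : Fx κ (XX ε F.1) (XX ε F.2) / XX ε F.1 =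
          hh1 κ (XX ε F.1 + max (XX ε F.1) (XX ε F.2)) := by
        unfold Fx
        field_simp
      have p3 : 0 ≤ XX ε F.1 + max (XX ε F.1) (XX ε F.2) := by positivity
      have e2 := hh1_nn h p3
      have e3 := h.tail _ p3
      simp only [e1]
      rw [abs_of_nonneg (by linarith)]
      linarith
    · have p1 := XX_pos hε F.1
      have p2 := XX_pos hε F.2
      have q1 := XX_pos hε F'.1
      have q2 := XX_pos hε F'.2
      have e1 : Fx κ (XX ε F.1) (XX ε F.2) / XX ε F.1 =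
          hh1 κ (XX ε F.1 + max (XX ε F.1) (XX ε F.2)) := by
        unfold Fx
        field_simp
      have e2 : Fx κ (XX ε F'.1) (XX ε F'.2) / XX ε F'.1 =
          hh1 κ (XX ε F'.1 + max (XX ε F'.1) (XX ε F'.2)) := by
        unfold Fx
        field_simp
      have p3 : 0 < max (XX ε F.1) (XX ε F.2) := lt_max_of_lt_left p1
      have q3 : 0 < max (XX ε F'.1) (XX ε F'.2) := lt_max_of_lt_left q1
      have r1 := XX_ge ε F.1
      have r2 := XX_ge ε F'.1
      have e3 := hh1_lip h (m := ‖F.1‖) (s := XX ε F.1 + max (XX ε F.1) (XX ε F.2))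
        (t := XX ε F'.1 + max (XX ε F'.1) (XX ε F'.2)) (by linarith)
        (by linarith) (by linarith) (by linarith)
      simp only [e1, e2, add_sub_add_right_eq_sub]
      refine e3.trans ?_
      have e4 : |(XX ε F.1 + max (XX ε F.1) (XX ε F.2)) -
          (XX ε F'.1 + max (XX ε F'.1) (XX ε F'.2))| ≤ 2 * ‖F - F'‖ := by
        have f1 := abs_max_sub_max_le_max (XX ε F.1) (XX ε F.2) (XX ε F'.1) (XX ε F'.2)
        have f2 := f1.trans (max_le (hX F F') (hY F F'))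
        have f3 := abs_add_le (XX ε F.1 - XX ε F'.1)
          (max (XX ε F.1) (XX ε F.2) - max (XX ε F'.1) (XX ε F'.2))
        have f4 := hX F F'
        calc _ = |(XX ε F.1 - XX ε F'.1) +
              (max (XX ε F.1) (XX ε F.2) - max (XX ε F'.1) (XX ε F'.2))| := by
              congr 1
              ring
          _ ≤ _ := by linarith
      calc C * _ ≤ C * (2 * ‖F - F'‖) := mul_le_mul_of_nonneg_left e4 hC.le
        _ = 2 * C * ‖F - F'‖ := by ring
  have hB : ∀ F F' : ℂ × ℂ,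
      ‖(Fy κ (XX ε F.1) (XX ε F.2) / XX ε F.2 + ϑ) • F.2 -
        (Fy κ (XX ε F'.1) (XX ε F'.2) / XX ε F'.2 + ϑ) • F'.2‖ ≤
        ((3 * C + ϑ) + 6 * C) * ‖F - F'‖ := by
    have eq : ∀ F : ℂ × ℂ, Fy κ (XX ε F.1) (XX ε F.2) / XX ε F.2 =
        om1 κ (XX ε F.2 + min (XX ε F.1) (XX ε F.2)) / XX ε F.2 -
          hh1 κ (XX ε F.2 + min (XX ε F.1) (XX ε F.2)) := by
      intro F
      have p1 := XX_pos hε F.1
      have p2 := XX_pos hε F.2
      rw [Fy_eq h p1 p2]
      field_simp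
    refine lip_of (φ := fun F : ℂ × ℂ => Fy κ (XX ε F.1) (XX ε F.2) / XX ε F.2 + ϑ)
      (u := fun F => F.2) hn2 (fun F => ?_) (fun F F' hF => ?_)
    · have p1 := XX_pos hε F.1
      have p2 := XX_pos hε F.2
      simp only [eq]
      set Y := XX ε F.2
      set T := Y + min (XX ε F.1) Y with hT
      have p3 : 0 < min (XX ε F.1) Y := lt_min p1 p2
      have p4 : T ≤ 2 * Y := by
        have := min_le_right (XX ε F.1) Y
        linarith
      have p5 : 0 ≤ T := by linarith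
      have e1 := om1_le h p5
      have e2 := hh1_nn h p5
      have e3 := h.tail _ p5
      have e4 : |om1 κ T / Y| ≤ 2 * C := by
        rw [abs_div, abs_of_pos p2, div_le_iff₀ p2]
        refine e1.trans ?_
        nlinarith
      have e5 := abs_le.1 e4
      rw [abs_le]
      constructor <;> linarith [e5.1, e5.2]
    · have p1 := XX_pos hε F.1
      have p2 := XX_pos hε F.2
      have q1 := XX_pos hε F'.1
      have q2 := XX_pos hε F'.2
      have r1 := XX_ge ε F.2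
      have r2 := XX_ge ε F'.2
      have gX := hX F F'
      have gY := hY F F'
      simp only [eq, add_sub_add_right_eq_sub]
      have nF := norm_nonneg F.2
      set X := XX ε F.1
      set Y := XX ε F.2
      set X' := XX ε F'.1
      set Y' := XX ε F'.2
      set T := Y + min X Y with hT
      set T' := Y' + min X' Y' with hT'
      have p3 : 0 < min X Y := lt_min p1 p2
      have q3 : 0 < min X' Y' := lt_min q1 q2
      have p4 : T ≤ 2 * Y := by
        have := min_le_right X Y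
        linarith
      have q4 : T' ≤ 2 * Y' := by
        have := min_le_right X' Y'
        linarith
      have p5 : 0 < T := by linarith
      have q5 : 0 < T' := by linarith
      have e3 := hh1_lip h (m := ‖F.2‖) (s := T) (t := T') (by linarith)
        (by linarith) p5 q5
      have e4 : |T - T'| ≤ 2 * ‖F - F'‖ := by
        have f1 := abs_min_sub_min_le_max X Y X' Y'
        have f2 := f1.trans (max_le gX gY)
        have f3 := abs_add_le (Y - Y') (min X Y - min X' Y')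
        calc _ = |(Y - Y') + (min X Y - min X' Y')| := by
              congr 1
              rw [hT, hT']
              ring
          _ ≤ _ := by linarith
      have e5 : ‖F.2‖ * |om1 κ T / Y - om1 κ T' / Y'| ≤ 4 * C * ‖F - F'‖ := by
        have f1 : om1 κ T / Y - om1 κ T' / Y' =
            (om1 κ T - om1 κ T') / Y + om1 κ T' / Y' * ((Y' - Y) / Y) := by
          field_simp
          ring
        have f2 : |(om1 κ T - om1 κ T') / Y| ≤ C * (2 * ‖F - F'‖) / Y := by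
          rw [abs_div, abs_of_pos p2]
          have := (om1_lip h T T').trans (mul_le_mul_of_nonneg_left e4 hC.le)
          gcongr
        have f3 : |om1 κ T' / Y'| ≤ 2 * C := by
          rw [abs_div, abs_of_pos q2, div_le_iff₀ q2]
          refine (om1_le h q5.le).trans ?_
          nlinarith
        have f4 : |(Y' - Y) / Y| ≤ ‖F - F'‖ / Y := by
          rw [abs_div, abs_of_pos p2, abs_sub_comm]
          gcongr
        have f5 : |om1 κ T' / Y' * ((Y' - Y) / Y)| ≤ 2 * C * (‖F - F'‖ / Y) := by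
          rw [abs_mul]
          exact mul_le_mul f3 f4 (abs_nonneg _) (by positivity)
        rw [f1]
        calc ‖F.2‖ * |(om1 κ T - om1 κ T') / Y + om1 κ T' / Y' * ((Y' - Y) / Y)|
            ≤ Y * (C * (2 * ‖F - F'‖) / Y + 2 * C * (‖F - F'‖ / Y)) := by
              refine mul_le_mul r1 ((abs_add_le _ _).trans (add_le_add f2 f5)) (abs_nonneg _)
                p2.le
          _ = 4 * C * ‖F - F'‖ := by
              field_simp
              ring
      have e6 : om1 κ T / Y - hh1 κ T - (om1 κ T' / Y' - hh1 κ T') =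
          (om1 κ T / Y - om1 κ T' / Y') - (hh1 κ T - hh1 κ T') := by ring
      rw [e6]
      have e7 := abs_sub (om1 κ T / Y - om1 κ T' / Y') (hh1 κ T - hh1 κ T')
      have e8 := mul_le_mul_of_nonneg_left e7 nF
      have e9 := mul_le_mul_of_nonneg_left e4 hC.le
      nlinarith
  refine ⟨fun F => (hfd F).differentiableAt,
    ⟨Real.toNNReal (((C + ϑ) + 2 * C) + ((3 * C + ϑ) + 6 * C)), ?_⟩, ?_, ?_⟩
  · refine LipschitzWith.of_dist_le_mul fun F F' => ?_
    rw [dist_eq_norm, dist_eq_norm, (hfd F).fderiv, (hfd F').fderiv]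
    refine (LL_lip _ _ _ _).trans ?_
    have := hA F F'
    have := hB F F'
    rw [Real.coe_toNNReal _ (by positivity)]
    linarith
  · simp [wX, XX_zero hε]
  · rw [(hfd 0).fderiv]
    simp [LL]

end Pool.Agent.W439.IX.Regw
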